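import Mathlib

set_option autoImplicit false

namespace Pool.Agent.Results.MP_a0fa86_nt.Plane

open Matrix

/-- an integer vector as a real vector -/
def rv (x : Fin 2 → ℤ) : Fin 2 → ℝ := fun i => x i

/-- `(x, y)` is a best approximation vector (norms are sup norms) -/
def IsBest (Θ : Matrix (Fin 2) (Fin 2) ℝ) (x y : Fin 2 → ℤ) : Prop :=
  x ≠ 0 ∧ ∀ x' y' : Fin 2 → ℤ, ‖rv x'‖ ≤ ‖rv x‖ →
    ‖Θ *ᵥ rv x' - rv y'‖ ≤ ‖Θ *ᵥ rv x - rv y‖ →
    (x', y') = 0 ∨ (x', y') = (x, y) ∨ (x', y') = -(x, y)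

noncomputable def Th : Matrix (Fin 2) (Fin 2) ℝ := !![1 / 10, √2 / 10; √2 / 10, 2 / 10]

noncomputable def L (x : Fin 2 → ℤ) : ℝ := x 0 + √2 * x 1

lemma s2 : √2 * √2 = 2 := Real.mul_self_sqrt (by norm_num)
lemma s2a : 1.4 < √2 := by rw [Real.lt_sqrt (by norm_num)]; norm_num
lemma s2b : √2 < 1.5 := by rw [Real.sqrt_lt' (by norm_num)]; norm_num

lemma Th0 (x : Fin 2 → ℤ) : (Th *ᵥ rv x) 0 = L x / 10 := by
  simp [Th, mulVec, dotProduct, rv, L]; ring

lemma Th1 (x : Fin 2 → ℤ) : (Th *ᵥ rv x) 1 = √2 * L x / 10 := by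
  simp [Th, mulVec, dotProduct, rv, L]
  linear_combination (-(x 1 : ℝ) / 10) * s2

lemma rv0 : rv 0 = 0 := by funext i; simp [rv]

lemma normTh (x : Fin 2 → ℤ) : ‖Th *ᵥ rv x‖ = √2 * |L x| / 10 := by
  have h := s2a
  apply le_antisymm
  · rw [pi_norm_le_iff_of_nonneg (by positivity), Fin.forall_fin_two, Th0, Th1, Real.norm_eq_abs,
      Real.norm_eq_abs, abs_div, abs_div, abs_mul, abs_of_pos (by positivity : (0 : ℝ) < √2),
      abs_of_pos (by norm_num : (0 : ℝ) < 10)]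
    constructor <;> nlinarith [abs_nonneg (L x)]
  · have := norm_le_pi_norm (Th *ᵥ rv x) 1
    rwa [Th1, Real.norm_eq_abs, abs_div, abs_mul, abs_of_pos (by positivity : (0 : ℝ) < √2),
      abs_of_pos (by norm_num : (0 : ℝ) < 10)] at this

lemma pell (a b : ℤ) (h : ¬ (a = 0 ∧ b = 0)) : 1 ≤ |(a : ℝ) + √2 * b| * |(a : ℝ) - √2 * b| := by
  have h1 : ((a : ℝ) + √2 * b) * ((a : ℝ) - √2 * b) = ((a ^ 2 - 2 * b ^ 2 : ℤ) : ℝ) := by
    push_cast; linear_combination (-(b : ℝ) ^ 2) * s2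
  rw [← abs_mul, h1, ← Int.cast_abs]
  have h2 : a ^ 2 - 2 * b ^ 2 ≠ 0 := by
    intro h3
    have hb : b ≠ 0 := by
      rintro rfl
      exact h ⟨by simpa using h3, rfl⟩
    have h4 : ((a : ℝ) + √2 * b) * ((a : ℝ) - √2 * b) = 0 := by rw [h1, h3]; simp
    have hb' : (b : ℝ) ≠ 0 := by exact_mod_cast hb
    rcases mul_eq_zero.mp h4 with h5 | h5
    · exact irrational_sqrt_two ⟨-a / b, by push_cast; field_simp; linarith⟩
    · exact irrational_sqrt_two ⟨a / b, by push_cast; field_simp; linarith⟩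
  exact_mod_cast Int.one_le_abs h2

lemma L_inj {x : Fin 2 → ℤ} (h : L x = 0) : x = 0 := by
  by_contra h1
  have := pell (x 0) (x 1) (fun h2 => h1 (by funext i; fin_cases i; exacts [h2.1, h2.2]))
  rw [L] at h
  rw [h] at this
  norm_num at this

lemma L_le (x : Fin 2 → ℤ) : |L x| ≤ 2.5 * ‖rv x‖ ∧ |(x 0 : ℝ) - √2 * x 1| ≤ 2.5 * ‖rv x‖ := by
  have h0 : |(x 0 : ℝ)| ≤ ‖rv x‖ := norm_le_pi_norm (rv x) 0
  have h1 : |(x 1 : ℝ)| ≤ ‖rv x‖ := norm_le_pi_norm (rv x) 1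
  have h2 : |√2 * (x 1 : ℝ)| ≤ 1.5 * ‖rv x‖ := by
    rw [abs_mul, abs_of_pos (by positivity : (0 : ℝ) < √2)]
    exact mul_le_mul s2b.le h1 (abs_nonneg _) (by norm_num)
  exact ⟨(abs_add_le _ _).trans (by linarith), (abs_sub _ _).trans (by linarith)⟩

lemma y_zero {x y : Fin 2 → ℤ} {N : ℝ} (hN : 1 ≤ N) (hx : ‖rv x‖ ≤ N)
    (h : ‖Th *ᵥ rv x - rv y‖ * (N + 1) ≤ 1 / 5) : y = 0 := by
  by_contra h1
  have h2 := pell (y 1) (y 0) (fun h2 => h1 (by funext i; fin_cases i; exacts [h2.2, h2.1]))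
  set ζ := ‖Th *ᵥ rv x - rv y‖
  have z0 : 0 ≤ ζ := norm_nonneg _
  have a0 : |L x / 10 - y 0| ≤ ζ := by
    have := norm_le_pi_norm (Th *ᵥ rv x - rv y) 0
    rwa [Pi.sub_apply, Th0] at this
  have a1 : |√2 * L x / 10 - y 1| ≤ ζ := by
    have := norm_le_pi_norm (Th *ᵥ rv x - rv y) 1
    rwa [Pi.sub_apply, Th1] at this
  have a2 := (L_le x).1
  have := s2a
  have := s2b
  rw [abs_le] at a0 a1 a2
  have b1 : |(y 1 : ℝ) - √2 * y 0| ≤ 2.5 * ζ := by
    rw [abs_le]; constructor <;> nlinarith [a0.1, a0.2, a1.1, a1.2]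
  have b2 : |(y 1 : ℝ) + √2 * y 0| ≤ 2.5 * ζ + N := by
    rw [abs_le]; constructor <;> nlinarith [a0.1, a0.2, a1.1, a1.2, a2.1, a2.2]
  have b3 := h2.trans (mul_le_mul b2 b1 (abs_nonneg _) (by positivity))
  nlinarith

lemma dirichlet {N : ℕ} (hN : 0 < N) :
    ∃ x : Fin 2 → ℤ, x ≠ 0 ∧ ‖rv x‖ ≤ N ∧ ‖Th *ᵥ rv x‖ * (N + 1) ≤ 1 / 5 := by
  obtain ⟨j, k, h1, h2, h3⟩ := Real.exists_int_int_abs_mul_sub_le (√2 / 2) hN
  have hN' : (1 : ℝ) ≤ N := by exact_mod_cast hN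
  have k1 : (0 : ℝ) < k := by exact_mod_cast h1
  have k2 : (k : ℝ) ≤ N := by exact_mod_cast h2
  have := s2a
  have := s2b
  have h4 : 1 / ((N : ℝ) + 1) ≤ 1 / 2 := one_div_le_one_div_of_le (by norm_num) (by linarith)
  refine ⟨![k, -j], fun h => h1.ne' (congrFun h 0), ?_, ?_⟩
  · rw [pi_norm_le_iff_of_nonneg (by positivity), Fin.forall_fin_two]
    simp only [rv, cons_val_zero, cons_val_one, Real.norm_eq_abs, Int.cast_neg, abs_neg]
    refine ⟨by rw [abs_of_pos k1]; exact k2, ?_⟩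
    have h5 := abs_le.mp (h3.trans h4)
    have h6 : |(j : ℝ)| < N + 1 := by rw [abs_lt]; constructor <;> nlinarith [h5.1, h5.2]
    have h7 : |j| < N + 1 := by exact_mod_cast h6
    exact_mod_cast (by omega : |j| ≤ N)
  · rw [normTh]
    have h5 : √2 * |L ![k, -j]| = 2 * |k * (√2 / 2) - j| := by
      have h6 : √2 * L ![k, -j] = 2 * (k * (√2 / 2) - j) := by
        simp only [L, cons_val_zero, cons_val_one, Int.cast_neg]
        linear_combination (-(j : ℝ)) * s2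
      have h7 := congrArg abs h6
      rwa [abs_mul, abs_mul, abs_of_pos (by positivity : (0 : ℝ) < √2),
        abs_of_pos (by norm_num : (0 : ℝ) < 2)] at h7
    rw [h5]
    rw [le_div_iff₀ (by positivity)] at h3
    linarith

lemma best_y {x y : Fin 2 → ℤ} (h : IsBest Th x y) : y = 0 := by
  obtain ⟨N, hN⟩ : ∃ N : ℕ, ‖rv x‖ = N := by
    refine ⟨max (x 0).natAbs (x 1).natAbs, ?_⟩
    rw [Pi.norm_def, show (Finset.univ : Finset (Fin 2)) = {0, 1} from rfl, Finset.sup_insert,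
      Finset.sup_singleton]
    simp [rv]
  have hN0 : 0 < N := by
    rcases Nat.eq_zero_or_pos N with rfl | h0
    · exfalso
      apply h.1
      rw [Nat.cast_zero, norm_eq_zero] at hN
      funext i
      simpa [rv] using congrFun hN i
    · exact h0
  obtain ⟨x', h1, h2, h3⟩ := dirichlet hN0
  by_cases hc : ‖Th *ᵥ rv x - rv y‖ * (N + 1) ≤ 1 / 5
  · exact y_zero (by exact_mod_cast hN0) hN.le hc
  · have h4 : ‖Th *ᵥ rv x' - rv 0‖ ≤ ‖Th *ᵥ rv x - rv y‖ := by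
      rw [rv0, sub_zero]
      exact le_of_mul_le_mul_right (h3.trans (not_le.mp hc).le) (by positivity)
    rcases h.2 x' 0 (hN ▸ h2) h4 with h5 | h5 | h5
    · exact absurd (congrArg Prod.fst h5) h1
    · exact (congrArg Prod.snd h5).symm
    · simpa using congrArg Prod.snd h5

lemma exists_best (M : ℝ) : ∃ x, IsBest Th x 0 ∧ M < ‖rv x‖ := by
  obtain ⟨N, hN⟩ := exists_nat_gt (max 1 (4 * M))
  rw [max_lt_iff] at hN
  have hN0 : 0 < N := by exact_mod_cast (zero_lt_one.trans hN.1)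
  obtain ⟨x₀, h1, h2, h3⟩ := dirichlet hN0
  have hfin : {x : Fin 2 → ℤ | x ≠ 0 ∧ ‖rv x‖ ≤ N}.Finite := by
    refine (Set.finite_Icc (fun _ => -(N : ℤ)) (fun _ => (N : ℤ))).subset fun x hx => ?_
    have h4 : ∀ i, |x i| ≤ N := fun i => by
      have : |(x i : ℝ)| ≤ N := (norm_le_pi_norm (rv x) i).trans hx.2
      exact_mod_cast this
    exact ⟨fun i => (abs_le.mp (h4 i)).1, fun i => (abs_le.mp (h4 i)).2⟩
  obtain ⟨x, ⟨h4, h5⟩, h6⟩ := Set.exists_min_image _ (fun x => ‖Th *ᵥ rv x‖) hfin ⟨x₀, h1, h2⟩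
  have h7 : ‖Th *ᵥ rv x‖ * (N + 1) ≤ 1 / 5 :=
    (mul_le_mul_of_nonneg_right (h6 x₀ ⟨h1, h2⟩) (by positivity)).trans h3
  refine ⟨x, ⟨h4, fun x' y' a1 a2 => ?_⟩, ?_⟩
  · rw [rv0, sub_zero] at a2
    have a3 : y' = 0 := y_zero hN.1.le (a1.trans h5)
      ((mul_le_mul_of_nonneg_right a2 (by positivity)).trans h7)
    subst a3
    by_cases a4 : x' = 0
    · left; rw [a4]; rfl
    right
    rw [rv0, sub_zero] at a2
    have a5 := le_antisymm a2 (h6 x' ⟨a4, a1.trans h5⟩)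
    rw [normTh, normTh] at a5
    have a6 : |L x'| = |L x| := by
      have := s2a
      exact mul_left_cancel₀ (by positivity : √2 ≠ 0) (by linarith)
    rcases abs_eq_abs.mp a6 with a7 | a7
    · left
      have : x' - x = 0 := L_inj (by simp only [L, Pi.sub_apply] at a7 ⊢; push_cast; linarith)
      rw [sub_eq_zero.mp this]
    · right
      have : x' + x = 0 := L_inj (by simp only [L, Pi.add_apply] at a7 ⊢; push_cast; linarith)
      rw [eq_neg_of_add_eq_zero_left this]; simp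
  · by_contra hc
    have a1 := pell (x 0) (x 1) (fun h2 => h4 (by funext i; fin_cases i; exacts [h2.1, h2.2]))
    have a2 := (L_le x).2
    rw [normTh] at h7
    change 1 ≤ |L x| * _ at a1
    have := s2a
    have a3 := abs_nonneg (L x)
    have a4 : 1 ≤ |L x| * (2.5 * M) :=
      a1.trans (mul_le_mul_of_nonneg_left (by linarith [not_lt.mp hc]) a3)
    have a5 : |L x| * (N + 1) ≤ 1.5 := by
      nlinarith [mul_nonneg a3 (show (0 : ℝ) ≤ N + 1 by positivity)]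
    nlinarith [hN.2]

theorem result : ∃ Θ : Matrix (Fin 2) (Fin 2) ℝ,
    (∀ x y : Fin 2 → ℤ, x ≠ 0 → Θ *ᵥ rv x ≠ rv y) ∧
    ∀ M : ℝ, Module.finrank ℝ (Submodule.span ℝ
      {z : (Fin 2 → ℝ) × (Fin 2 → ℝ) | ∃ x y, IsBest Θ x y ∧ M ≤ ‖rv x‖ ∧ z = (rv x, rv y)}) = 2 := by
  refine ⟨Th, fun x y hx h => ?_, fun M => le_antisymm ?_ ?_⟩
  · have h0 := congrFun h 0
    have h1 := congrFun h 1
    rw [Th0] at h0
    rw [Th1] at h1
    have h2 : (![y 1, -y 0] : Fin 2 → ℤ) = 0 := L_inj (by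
      simp only [L, cons_val_zero, cons_val_one, Int.cast_neg]
      simp only [rv] at h0 h1
      linear_combination √2 * h0 - h1)
    have h3 : y 0 = 0 := by simpa using congrFun h2 1
    simp only [rv, h3] at h0
    exact hx (L_inj (by simpa using h0))
  · have h1 : Submodule.span ℝ
        {z : (Fin 2 → ℝ) × (Fin 2 → ℝ) | ∃ x y, IsBest Th x y ∧ M ≤ ‖rv x‖ ∧ z = (rv x, rv y)} ≤
        LinearMap.range (LinearMap.inl ℝ (Fin 2 → ℝ) (Fin 2 → ℝ)) := by
      rw [Submodule.span_le]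
      rintro _ ⟨x, y, h, -, rfl⟩
      exact ⟨rv x, by rw [best_y h, rv0]; rfl⟩
    refine (Submodule.finrank_mono h1).trans ((LinearMap.finrank_range_le _).trans ?_)
    simp
  · obtain ⟨x₁, b1, c1⟩ := exists_best M
    obtain ⟨x₂, b2, c2⟩ := exists_best ‖rv x₁‖
    set S := Submodule.span ℝ
      {z : (Fin 2 → ℝ) × (Fin 2 → ℝ) | ∃ x y, IsBest Th x y ∧ M ≤ ‖rv x‖ ∧ z = (rv x, rv y)}
    have m1 : (rv x₁, rv 0) ∈ S := Submodule.subset_span ⟨x₁, 0, b1, c1.le, rfl⟩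
    have m2 : (rv x₂, rv 0) ∈ S := Submodule.subset_span ⟨x₂, 0, b2, (c1.trans c2).le, rfl⟩
    have hli : LinearIndependent ℝ ![(⟨_, m2⟩ : S), ⟨_, m1⟩] := by
      rw [LinearIndependent.pair_iff']
      · intro a ha
        have h1 : a • rv x₂ = rv x₁ := congrArg (fun z : S => z.1.1) ha
        have h2 : |a| ≤ 1 := by
          by_contra h3
          rw [← h1, norm_smul, Real.norm_eq_abs] at c2
          nlinarith [norm_nonneg (rv x₂), not_le.mp h3]
        have h3 : ‖Th *ᵥ rv x₁ - rv 0‖ ≤ ‖Th *ᵥ rv x₂ - rv 0‖ := by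
          rw [rv0, sub_zero, sub_zero, ← h1, mulVec_smul, norm_smul, Real.norm_eq_abs]
          exact mul_le_of_le_one_left (norm_nonneg _) h2
        rcases b2.2 x₁ 0 c2.le h3 with h4 | h4 | h4
        · exact b1.1 (congrArg Prod.fst h4)
        · have : x₁ = x₂ := congrArg Prod.fst h4
          rw [this] at c2; exact lt_irrefl _ c2
        · have : x₁ = -x₂ := congrArg Prod.fst h4
          have h5 : rv x₁ = -rv x₂ := by rw [this]; funext i; simp [rv]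
          rw [h5, norm_neg] at c2; exact lt_irrefl _ c2
      · intro h
        have h1 : rv x₂ = 0 := congrArg (fun z : S => z.1.1) h
        rw [h1, norm_zero] at c2
        exact absurd c2 (not_lt.mpr (norm_nonneg _))
    simpa using hli.fintype_card_le_finrank

end Pool.Agent.Results.MP_a0fa86_nt.Plane
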